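import Mathlib
import Pool.Agent.Work.MP_fccb05_lc.FA.Base

/-!
# MP_fccb05_lc: a non-cototal point in an effective quasi-Polish `T₁` space

The definitions below follow the section Setting and definitions of problem.md clause by clause;
the theorem `result` at the end answers Q1 positively.
-/

set_option autoImplicit false

namespace Pool.Agent.Results.MP_fccb05_lc.NonCototalPoint

/-- The finite set of natural numbers with canonical index `u`, that is, the finite set `D` with
`u = ∑ k ∈ D, 2 ^ k`. -/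
def canon (u : ℕ) : Finset ℕ := Finset.equivBitIndices u

/-- Enumeration reducibility `A ≤ₑ B` (clause Enumeration reducibility): there is a c.e. set `W` of
pairs `(n, D)`, with `D` a finite set given by its canonical index `u`, such that
`A = {n : ∃ D ⊆ B, (n, D) ∈ W}`. -/
def EnumRed (A B : Set ℕ) : Prop :=
  ∃ W : ℕ × ℕ → Prop, REPred W ∧ A = {n | ∃ u, (canon u : Set ℕ) ⊆ B ∧ W (n, u)}

/-- The e-degree of `A` (clause Enumeration reducibility): the class of `A` under the equivalence
`C ≤ₑ A` and `A ≤ₑ C`. -/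
def eDegree (A : Set ℕ) : Set (Set ℕ) := {C | EnumRed C A ∧ EnumRed A C}

/-- A set of natural numbers is cototal if it is enumeration reducible to its complement
(clause Cototal). -/
def CototalSet (C : Set ℕ) : Prop := EnumRed C Cᶜ

/-- An e-degree is cototal if it contains a cototal set (clause Cototal). -/
def CototalDegree (d : Set (Set ℕ)) : Prop := ∃ C ∈ d, CototalSet C

/-- The basic open set `[D] = {A : D ⊆ A}` of `P(ω)`, for a finite set `D`
(clause The space `P(ω)`). -/
def basic (D : Finset ℕ) : Set (Set ℕ) := {A | (D : Set ℕ) ⊆ A}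

/-- The Scott topology of `P(ω)`, generated by the sets `[D]` with `D` finite. They form a basis
because `[D] ∩ [E] = [D ∪ E]` and `[∅] = P(ω)`. -/
@[reducible] def scott : TopologicalSpace (Set ℕ) := TopologicalSpace.generateFrom {S | ∃ D, S = basic D}

/-- For a set `F` of pairs `(n, u)`, the open set with number `n`, the union of the sets `[D]` over
the finite sets `D` whose canonical index `u` satisfies `(n, u) ∈ F`. If `F` is c.e., then these are
uniformly c.e. open sets (clause The space `P(ω)`). -/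
def openSet (F : ℕ × ℕ → Prop) (n : ℕ) : Set (Set ℕ) := ⋃ u ∈ {u | F (n, u)}, basic (canon u)

/-- `X ⊆ P(ω)` is of the form `⋂ n, (P(ω) ∖ Uₙ) ∪ Vₙ` where `(Uₙ)` and `(Vₙ)` are uniformly c.e. open
sets (clause Effective quasi-Polish space). -/
def EffectiveQuasiPolish (X : Set (Set ℕ)) : Prop :=
  ∃ F G : ℕ × ℕ → Prop, REPred F ∧ REPred G ∧ X = ⋂ n, ((openSet F n)ᶜ ∪ openSet G n)

/-- The subspace topology of `X ⊆ P(ω)` is `T₁` in the usual topological sense (clause `T₁`). -/
def IsT1 (X : Set (Set ℕ)) : Prop := @T1Space X (TopologicalSpace.induced Subtype.val scott)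

/-- The set of the canonical indices of the basic neighbourhoods `[D]` of the point `A`
(clause Degree of a point, the version in brackets). -/
def nbhdIndices (A : Set ℕ) : Set ℕ := {u | A ∈ basic (canon u)}

/-! ### The proof -/

open Pool.Agent.Work.MP_fccb05_lc

theorem mem_canon (u k : ℕ) : k ∈ canon u ↔ k ∈ u.bitIndices := by
  rw [canon, Finset.equivBitIndices_apply, List.mem_toFinset]

theorem canon_sub (u : ℕ) (B : Set ℕ) :
    (canon u : Set ℕ) ⊆ B ↔ {k | k ∈ u.bitIndices} ⊆ B := by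
  constructor
  · intro h k hk
    exact h (Finset.mem_coe.2 ((mem_canon u k).2 hk))
  · intro h k hk
    exact h ((mem_canon u k).1 (Finset.mem_coe.1 hk))

theorem mem_openSet (F : ℕ × ℕ → Prop) (n : ℕ) (A : Set ℕ) :
    A ∈ openSet F n ↔ ∃ u, F (n, u) ∧ {k | k ∈ u.bitIndices} ⊆ A := by
  simp only [openSet, basic, Set.mem_iUnion, Set.mem_ofPred_eq, exists_prop, canon_sub]

/-- the space -/
def space : Set (Set ℕ) := ⋂ n, ((openSet (FA.Fam FA.gU) n)ᶜ ∪ openSet (FA.Fam FA.gV) n)

theorem mem_space (A : Set ℕ) : A ∈ space ↔ FA.InX A := by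
  unfold space FA.InX FA.U FA.V
  simp only [Set.mem_iInter, Set.mem_union, Set.mem_compl_iff, mem_openSet,
    FA.fam_iff FA.gU_nodup, FA.fam_iff FA.gV_nodup]
  exact forall_congr' fun i => imp_iff_not_or.symm

theorem space_eqp : EffectiveQuasiPolish space :=
  ⟨FA.Fam FA.gU, FA.Fam FA.gV, FA.re_Fam FA.primrec_gU, FA.re_Fam FA.primrec_gV, rfl⟩

theorem space_antichain {A B : Set ℕ} (hA : A ∈ space) (hB : B ∈ space) (h : A ⊆ B) : A = B :=
  FA.antichain ((mem_space A).1 hA) ((mem_space B).1 hB) h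

theorem isOpen_basic (D : Finset ℕ) : @IsOpen _ scott (basic D) :=
  TopologicalSpace.isOpen_generateFrom_of_mem ⟨D, rfl⟩

theorem isT1_of_antichain {X : Set (Set ℕ)} (h : ∀ A ∈ X, ∀ B ∈ X, A ⊆ B → A = B) : IsT1 X := by
  unfold IsT1
  let _ : TopologicalSpace X := TopologicalSpace.induced Subtype.val scott
  rw [t1Space_iff_exists_open]
  intro A B hAB
  have h1 : ¬ (A : Set ℕ) ⊆ B := fun h2 => hAB (Subtype.ext (h A A.2 B B.2 h2))
  obtain ⟨k, hkA, hkB⟩ := Set.not_subset.1 h1
  refine ⟨Subtype.val ⁻¹' basic {k}, ⟨basic {k}, isOpen_basic _, rfl⟩, ?_, ?_⟩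
  · simpa [basic] using hkA
  · simpa [basic] using hkB

/-- a reduction in the form used by the generic construction -/
theorem enumRed_iff {A B : Set ℕ} (h : EnumRed A B) :
    ∃ e : Nat.Partrec.Code, ∀ n, n ∈ A ↔ ∃ u, FA.codePred2 e (n, u) ∧
      {k | k ∈ u.bitIndices} ⊆ B := by
  obtain ⟨W, hW, hA⟩ := h
  obtain ⟨e, rfl⟩ := FA.exists_code2 hW
  refine ⟨e, fun n => ?_⟩
  rw [hA]
  simp only [Set.mem_ofPred_eq, canon_sub]
  exact exists_congr fun u => and_comm

theorem nbhd_eq (A : Set ℕ) : nbhdIndices A = {v | {k | k ∈ v.bitIndices} ⊆ A} := by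
  ext v
  simp only [nbhdIndices, basic, Set.mem_ofPred_eq, canon_sub]

/-- **Positive answer to Q1.** There is an effective quasi-Polish space `X ⊆ P(ω)` which is `T₁` (in
the usual topological sense for the subspace topology; also, its members are pairwise incomparable
under inclusion), and there is a point `A` of `X` such that the e-degree of the set `A` is not
cototal, nor is the e-degree of the set of the indices of the basic neighbourhoods of `A`. -/
theorem result :
    ∃ X : Set (Set ℕ), EffectiveQuasiPolish X ∧ IsT1 X ∧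
      (∀ A ∈ X, ∀ B ∈ X, A ⊆ B → A = B) ∧
      ∃ A ∈ X, ¬ CototalDegree (eDegree A) ∧ ¬ CototalDegree (eDegree (nbhdIndices A)) := by
  have hanti : ∀ A ∈ space, ∀ B ∈ space, A ⊆ B → A = B :=
    fun A hA B hB => space_antichain hA hB
  refine ⟨space, space_eqp, isT1_of_antichain hanti, hanti, ?_⟩
  obtain ⟨y, g1, g2, g3⟩ := FA.exists_generic FA.Ops
  refine ⟨FA.pt y, (mem_space _).2 (FA.pt_mem y), ?_, ?_⟩
  · rintro ⟨C, ⟨hCA, hAC⟩, hC⟩
    obtain ⟨e2, h2⟩ := enumRed_iff hCA
    obtain ⟨e1, h1⟩ := enumRed_iff hAC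
    obtain ⟨e, h⟩ := enumRed_iff hC
    refine FA.noncototal (W := FA.Ops (0, e)) (W1 := FA.Ops (0, e1)) (W2 := FA.Ops (0, e2))
      (g1 _) (g2 _ _ _) g3 C (fun n => ?_) (fun n => ?_) (fun n => ?_)
    · rw [h n]
      exact (FA.lst_iff _ n Cᶜ).symm
    · rw [h1 n]
      exact (FA.lst_iff _ n C).symm
    · rw [h2 n]
      exact (FA.lst_iff _ n _).symm
  · rintro ⟨C, ⟨hCA, hAC⟩, hC⟩
    obtain ⟨e2, h2⟩ := enumRed_iff hCA
    obtain ⟨e1, h1⟩ := enumRed_iff hAC
    obtain ⟨e, h⟩ := enumRed_iff hC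
    refine FA.noncototal (W := FA.Ops (0, e)) (W1 := FA.Ops (2, e1)) (W2 := FA.Ops (1, e2))
      (g1 _) (g2 _ _ _) g3 C (fun n => ?_) (fun n => ?_) (fun n => ?_)
    · rw [h n]
      exact (FA.lst_iff _ n Cᶜ).symm
    · have h3 : n ∈ FA.pt y ↔ 2 ^ n ∈ nbhdIndices (FA.pt y) := by
        rw [nbhd_eq, Set.mem_ofPred_eq, Nat.bitIndices_two_pow]
        simp only [List.mem_singleton]
        exact ⟨fun h4 k hk => by rw [Set.mem_ofPred_eq] at hk; rwa [hk], fun h4 => h4 rfl⟩
      rw [h3, h1]
      exact (FA.sh_iff _ n C).symm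
    · rw [h2 n, nbhd_eq]
      exact (FA.nbd_iff _ n _).symm

end Pool.Agent.Results.MP_fccb05_lc.NonCototalPoint
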